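import Pool.Agent.Q121.HY.Asm
import Pool.Agent.Q121.HY.Reg
import Pool.Agent.Q121.HY.Rcs
import Pool.Agent.Q121.HY.Fin
import Pool.Agent.Q47.HY.Cnt
import Pool.Agent.Q47.HY.Map
import Pool.Agent.Q47.HY.Num
import Pool.Agent.Q47.HY.Chn
import Pool.Agent.Q47.HY.Tree

/-!
# Contact numbers at the order-7 triangular tiling distance (MP_0702e0_co)

Proof (helper121, with helper47): the vertices of the order-7 triangular tiling are written with
coordinates in `ℤ[c]`, `c = 2 cos (2π/7)`, with respect to three mutually adjacent vertices; the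
spiral is the tree with the substitution `A -> BAA`, `B -> BA`; all its vertices are different
(nested convex regions), the minimal distance is `d(7)` (discreteness by the two other
embeddings of `ℤ[c]`, and the rotation by `2π/7`), and the prefix counts of the layers give
`5 x^2 - y^2 > 196` for the quadratic form of the formula.
-/

open scoped Classical

namespace Pool.Agent.Results.MP_0702e0_co.ContactNumber

/-- Number of touching pairs in the finite set `P` of points of the hyperbolic plane: half of the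
number of ordered pairs of points of `P` at distance exactly `d` (for `d > 0` this is the number of
unordered pairs at distance `d`). -/
noncomputable def touching (d : ℝ) (P : Finset UpperHalfPlane) : ℕ :=
  ((P ×ˢ P).filter (fun q => dist q.1 q.2 = d)).card / 2

/-- The numbers of touching pairs of all `n`-point sets in the hyperbolic plane with all distances
at least `d`. -/
def contactCounts (d : ℝ) (n : ℕ) : Set ℕ :=
  {t : ℕ | ∃ P : Finset UpperHalfPlane, P.card = n ∧
    (∀ x ∈ P, ∀ y ∈ P, x ≠ y → d ≤ dist x y) ∧ touching d P = t}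

/-- The maximal contact number `e_d(n)`. -/
noncomputable def e (d : ℝ) (n : ℕ) : ℕ := sSup (contactCounts d n)

/-- `d(7)`, the side of the regular hyperbolic triangle with all angles `2π/7`. -/
noncomputable def d7 : ℝ :=
  Real.arcosh (Real.cos (2 * Real.pi / 7) / (1 - Real.cos (2 * Real.pi / 7)))

theorem main (n : ℕ) (hn : 1 ≤ n) :
    ∃ P : Finset UpperHalfPlane, P.card = n ∧ (∀ x ∈ P, ∀ y ∈ P, x ≠ y → d7 ≤ dist x y) ∧
      ⌊(7 / 2 : ℝ) * n - Real.sqrt (5 / 4 * (n : ℝ) ^ 2 + 15 * n - 4)⌋ ≤ (touching d7 P : ℤ) := by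
  have hNum := Pool.Agent.Q47.HY.num
  have hRcs := Q121.HY.rcs
  have hFin := Q121.HY.fin hNum Pool.Agent.Q47.HY.uni
  exact Q121.HY.main hNum hRcs (Pool.Agent.Q47.HY.min hRcs hFin)
    (Pool.Agent.Q47.HY.tree (Q121.HY.reg hRcs) (Q121.HY.root hRcs) hRcs) Pool.Agent.Q47.HY.cnt
    Pool.Agent.Q47.HY.edg' Pool.Agent.Q47.HY.frm Pool.Agent.Q47.HY.map n hn

theorem bdd (d : ℝ) (n : ℕ) : BddAbove (contactCounts d n) := by
  refine ⟨n * n, ?_⟩
  rintro t ⟨P, hP, -, rfl⟩
  unfold touching
  calc _ ≤ ((P ×ˢ P).filter (fun q => dist q.1 q.2 = d)).card := Nat.div_le_self _ _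
    _ ≤ (P ×ˢ P).card := Finset.card_filter_le _ _
    _ = n * n := by rw [Finset.card_product, hP]

/-- `d(7)` is the unique positive solution of `cos (2π/7) = tanh (d/2) / tanh d`, and for every
`n ≥ 1` the maximal contact number `e_{d(7)}(n)` is at least
`⌊7n/2 - sqrt (5n²/4 + 15n - 4)⌋`. -/
theorem result :
    0 < d7 ∧
    (∀ d : ℝ, 0 < d →
      (Real.cos (2 * Real.pi / 7) = Real.tanh (d / 2) / Real.tanh d ↔ d = d7)) ∧
    ∀ n : ℕ, 1 ≤ n → IsGreatest (contactCounts d7 n) (e d7 n) ∧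
      ⌊(7 / 2 : ℝ) * n - Real.sqrt (5 / 4 * (n : ℝ) ^ 2 + 15 * n - 4)⌋ ≤ (e d7 n : ℤ) := by
  obtain ⟨h1, -, h3⟩ := Q121.HY.d7_facts Pool.Agent.Q47.HY.num
  refine ⟨h1, h3, fun n hn => ?_⟩
  obtain ⟨P, hP1, hP2, hP3⟩ := main n hn
  have hne : (contactCounts d7 n).Nonempty := ⟨_, P, hP1, hP2, rfl⟩
  refine ⟨⟨Nat.sSup_mem hne (bdd d7 n), fun t ht => le_csSup (bdd d7 n) ht⟩, ?_⟩
  refine hP3.trans ?_
  have h4 : touching d7 P ≤ e d7 n := le_csSup (bdd d7 n) ⟨P, hP1, hP2, rfl⟩
  exact_mod_cast h4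

end Pool.Agent.Results.MP_0702e0_co.ContactNumber
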